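import Mathlib
import Pool.Agent.H.MP_8144ad_nt.C

open Filter Topology Finset

namespace Pool.Agent.Results.MP_8144ad_nt.Yes

def IsExp (q E : ℕ → ℕ) (x : ℝ) : Prop :=
  (∀ n, 1 ≤ n → E n < q n) ∧ (∀ N, ∃ n, N ≤ n ∧ E n + 1 ≠ q n) ∧
    HasSum (fun n => (E (n + 1) : ℝ) / ∏ i ∈ range (n + 1), (q (i + 1) : ℝ)) (x - ⌊x⌋)

noncomputable def Qs (q : ℕ → ℕ) (k n : ℕ) : ℝ :=
  ∑ p ∈ Icc 1 n, 1 / ∏ j ∈ range k, (q (p + j) : ℝ)

def Normal (q E : ℕ → ℕ) (k : ℕ) : Prop :=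
  ∀ B : Fin k → ℕ, Tendsto
    (fun n => (#{p ∈ Icc 1 n | ∀ j : Fin k, E (p + j) = B j} : ℝ) / Qs q k n) atTop (𝓝 1)

noncomputable def QsAP (q : ℕ → ℕ) (k m r n : ℕ) : ℝ :=
  ∑ p ∈ Icc 1 n with p % m = r, 1 / ∏ j ∈ range k, (q (p + j) : ℝ)

def NormalAP (q E : ℕ → ℕ) (k m r : ℕ) : Prop :=
  ∀ B : Fin k → ℕ, Tendsto
    (fun n => (#{p ∈ Icc 1 n | p % m = r ∧ ∀ j : Fin k, E (p + j) = B j} : ℝ) / QsAP q k m r n)
    atTop (𝓝 1)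

open Pool.Agent.H.MP_8144ad_nt in
theorem result : ∃ (x : ℝ) (q E : ℕ → ℕ), (∀ n, 1 ≤ n → 2 ≤ q n) ∧ Tendsto q atTop atTop ∧
    (∀ k m r, 1 ≤ k → r < m → Tendsto (QsAP q k m r) atTop atTop) ∧ IsExp q E x ∧
    (∀ k, 1 ≤ k → Normal q E k) ∧ ∀ k r, 2 ≤ k → r < k → ¬ NormalAP q E k k r := by
  obtain ⟨x, hx⟩ := expan qq (EE Set.univ) (EE_le _)
  refine ⟨x, qq, EE Set.univ, fun n _ => by have := EE_le Set.univ n; omega, qq_tendsto,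
    fun k m r hk hr => (mainF Set.univ k m r (fun _ => 0) hk hr).1,
    ⟨fun n _ => by have := EE_le Set.univ n; omega,
      fun N => ⟨N, le_rfl, by have := EE_le Set.univ N; omega⟩, hx⟩, fun k hk B => ?_,
    fun k r hk hr h => ?_⟩
  · simpa [Nat.mod_one, Qs] using (mainF Set.univ k 1 0 B hk one_pos).2
  · have h1 := (mainF Set.univ k k r (fun _ => 0) (by omega) hr).2
    have h2 := tendsto_nhds_unique (h fun _ => 0) (by convert h1 using 3; rfl)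
    split_ifs at h2
    · have : 1 = k := by exact_mod_cast h2
      omega
    · norm_num at h2

end Pool.Agent.Results.MP_8144ad_nt.Yes
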